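import Pool.Agent.H88.MCR.Stmts

/-!
Board mcr, row ORD: a forest can be ordered so that every vertex has at most one earlier neighbour.
-/

set_option autoImplicit false

namespace Pool.MCR

open SimpleGraph

theorem ord_parent {V : Type} {T : SimpleGraph V} (hT : T.IsTree) (r : V) {v y y' : V}
    (h : T.Adj v y) (h' : T.Adj v y') (hd : T.dist r v = T.dist r y + 1)
    (hd' : T.dist r v = T.dist r y' + 1) : y = y' := by
  classical
  have key : ∀ z : V, T.Adj v z → T.dist r v = T.dist r z + 1 →
      ∃ p : T.Walk r z, p.IsPath ∧ v ∉ p.support := by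
    intro z _ hz
    obtain ⟨p, hp, hl⟩ := (hT.connected r z).exists_path_of_dist
    refine ⟨p, hp, fun hv => ?_⟩
    have h1 : T.dist r v ≤ (p.takeUntil v hv).length := dist_le _
    have h2 : (p.takeUntil v hv).length ≤ p.length := p.length_takeUntil_le_length hv
    omega
  obtain ⟨p, hp, hv⟩ := key y h hd
  obtain ⟨p', hp', hv'⟩ := key y' h' hd'
  have h1 := hp.concat hv h.symm
  have h2 := hp'.concat hv' h'.symm
  have h3 : p.concat h.symm = p'.concat h'.symm :=
    Subtype.mk.inj ((hT.isAcyclic.subsingleton_path r v).elim ⟨_, h1⟩ ⟨_, h2⟩)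
  have h4 : (p.concat h.symm).penultimate = (p'.concat h'.symm).penultimate := by rw [h3]
  simpa using h4

theorem ord_thm : ORD_S := by
  classical
  intro V _ F hF
  by_cases hne : Nonempty V
  · obtain ⟨r⟩ := hne
    have hne' : Nonempty V := ⟨r⟩
    have hconn : (⊤ : SimpleGraph V).Connected := connected_top
    obtain ⟨T, hFT, _, hT⟩ := hconn.exists_isTree_le_of_le_of_isAcyclic le_top hF
    -- an order compatible with the distance from the root
    let N := Fintype.card V
    let idx : V ≃ Fin N := Fintype.equivFin V
    let f : V → ℕ := fun v => T.dist r v * N + (idx v : ℕ)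
    have hf : ∀ a b, T.dist r a < T.dist r b → f a < f b := by
      intro a b hab
      have h1 : (T.dist r a + 1) * N ≤ T.dist r b * N := Nat.mul_le_mul_right N hab
      have h2 := (idx a).2
      have h3 : (T.dist r a + 1) * N = T.dist r a * N + N := by ring
      show T.dist r a * N + (idx a : ℕ) < T.dist r b * N + (idx b : ℕ)
      omega
    have hinj : Function.Injective f := by
      intro a b hab
      rcases lt_trichotomy (T.dist r a) (T.dist r b) with h | h | h
      · exact absurd hab (hf a b h).ne
      · have h1 : T.dist r a * N + (idx a : ℕ) = T.dist r b * N + (idx b : ℕ) := hab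
        rw [h] at h1
        apply idx.injective
        apply Fin.ext
        omega
      · exact absurd hab (hf b a h).ne'
    let _ : LinearOrder V := LinearOrder.lift' f hinj
    let e : V ≃o Fin N := (Fintype.orderIsoFinOfCardEq V rfl).symm
    have he : ∀ a b, T.dist r a < T.dist r b → (e a : ℕ) < (e b : ℕ) := by
      intro a b hab
      have h1 : a < b := hf a b hab
      exact e.lt_iff_lt.2 h1
    let Q : ℕ → V × V → Prop := fun i q =>
      (e q.1 : ℕ) = i ∧ T.Adj q.1 q.2 ∧ T.dist r q.1 = T.dist r q.2 + 1
    let p : ℕ → ℕ := fun i => if h : ∃ q, Q i q then (e h.choose.2 : ℕ) else 0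
    have hp : ∀ v y, T.Adj v y → T.dist r v = T.dist r y + 1 → p (e v) = e y := by
      intro v y h1 h2
      have h3 : ∃ q, Q (e v) q := ⟨(v, y), rfl, h1, h2⟩
      show (if h : ∃ q, Q (e v) q then (e h.choose.2 : ℕ) else 0) = e y
      rw [dif_pos h3]
      obtain ⟨h4, h5, h6⟩ := h3.choose_spec
      have h7 : h3.choose.1 = v := e.injective (Fin.ext h4)
      have h8 : h3.choose.2 = y := by
        rw [h7] at h5 h6
        exact ord_parent hT r h5 h1 h6 h2
      rw [h8]
    refine ⟨e.toEquiv, p, ?_, ?_⟩
    · intro i hi
      show (if h : ∃ q, Q i q then (e h.choose.2 : ℕ) else 0) < i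
      by_cases h3 : ∃ q, Q i q
      · rw [dif_pos h3]
        obtain ⟨h4, _, h6⟩ := h3.choose_spec
        have h7 := he h3.choose.2 h3.choose.1 (by omega)
        omega
      · rw [dif_neg h3]
        omega
    · intro x y hxy
      have h1 : T.Adj x y := hFT hxy
      rcases hT.dist_eq_dist_add_one_of_adj r h1 with h2 | h2
      · left
        have h3 := he y x (by omega)
        refine ⟨?_, (hp x y h1 h2).symm⟩
        show 1 ≤ (e x : ℕ)
        omega
      · right
        have h3 := he x y (by omega)
        refine ⟨?_, (hp y x h1.symm h2).symm⟩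
        show 1 ≤ (e y : ℕ)
        omega
  · have hemp : IsEmpty V := not_nonempty_iff.1 hne
    refine ⟨Fintype.equivFin V, fun _ => 0, fun i hi => hi, fun x => isEmptyElim x⟩

end Pool.MCR
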